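import Pool.Agent.J6H50.RF.Stm

set_option autoImplicit false

/-!
# RF-01: truth depends only on the free variables
-/

namespace Pool.Agent.J6H31.RF01

open Pool.Agent.J6H50.RF Pool.Agent.NPC

theorem tm_dep {M : Type} (A : Str M) : ∀ (t : Tm) (v w : ℕ → M), (∀ i, t.Occ i → v i = w i) →
    t.val A v = t.val A w := by
  intro t
  induction t with
  | var i =>
    intro v w h
    exact h i rfl
  | zero =>
    intro v w _
    rfl
  | suc t ih =>
    intro v w h
    show A.suc (t.val A v) = A.suc (t.val A w)
    rw [ih v w h]
  | add s t ihs iht =>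
    intro v w h
    show A.add (s.val A v) (t.val A v) = A.add (s.val A w) (t.val A w)
    rw [ihs v w fun i hi => h i (Or.inl hi), iht v w fun i hi => h i (Or.inr hi)]
  | mul s t ihs iht =>
    intro v w h
    show A.mul (s.val A v) (t.val A v) = A.mul (s.val A w) (t.val A w)
    rw [ihs v w fun i hi => h i (Or.inl hi), iht v w fun i hi => h i (Or.inr hi)]
  | smash s t ihs iht =>
    intro v w h
    show A.smash (s.val A v) (t.val A v) = A.smash (s.val A w) (t.val A w)
    rw [ihs v w fun i hi => h i (Or.inl hi), iht v w fun i hi => h i (Or.inr hi)]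
  | len t ih =>
    intro v w h
    show A.len (t.val A v) = A.len (t.val A w)
    rw [ih v w h]
  | half t ih =>
    intro v w h
    show A.half (t.val A v) = A.half (t.val A w)
    rw [ih v w h]

theorem m01 : S_dep := by
  intro M A φ
  induction φ with
  | bot =>
    intro v w _
    exact Iff.rfl
  | eq s t =>
    intro v w h
    show s.val A v = t.val A v ↔ s.val A w = t.val A w
    rw [tm_dep A s v w fun i hi => h i (Or.inl hi), tm_dep A t v w fun i hi => h i (Or.inr hi)]
  | le s t =>
    intro v w h
    show A.le (s.val A v) (t.val A v) ↔ A.le (s.val A w) (t.val A w)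
    rw [tm_dep A s v w fun i hi => h i (Or.inl hi), tm_dep A t v w fun i hi => h i (Or.inr hi)]
  | imp φ ψ ih1 ih2 =>
    intro v w h
    show (φ.Sat A v → ψ.Sat A v) ↔ (φ.Sat A w → ψ.Sat A w)
    rw [ih1 v w fun i hi => h i (Or.inl hi), ih2 v w fun i hi => h i (Or.inr hi)]
  | all j φ ih =>
    intro v w h
    show (∀ x, φ.Sat A (Function.update v j x)) ↔ ∀ x, φ.Sat A (Function.update w j x)
    refine forall_congr' fun x => ih _ _ fun k hk => ?_
    by_cases hkj : k = j
    · subst hkj
      rw [Function.update_self, Function.update_self]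
    · rw [Function.update_of_ne hkj, Function.update_of_ne hkj]
      exact h k ⟨hkj, hk⟩

end Pool.Agent.J6H31.RF01
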