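import Pool.Agent.J6H31.RF.M01

set_option autoImplicit false

/-!
# RF-05: the standard model satisfies `PIND`
-/

namespace Pool.Agent.J6H31.RF05

open Pool.Agent.J6H50.RF Pool.Agent.NPC

theorem free_occ (i : ℕ) : ∀ φ : Fm, φ.Free i → φ.Occ i := by
  intro φ
  induction φ with
  | bot => exact id
  | eq s t => exact id
  | le s t => exact id
  | imp φ ψ ih1 ih2 => exact fun h => h.imp ih1 ih2
  | all j φ ih => exact fun h => Or.inr (ih h.2)

theorem m05 : S_pindN := by
  intro i j φ hij hj v
  show (inst i .zero φ).Sat Nn v → (Fm.all i (.imp (inst j (.half (.var i))
    (inst i (.var j) φ)) φ)).Sat Nn v → ∀ x : ℕ, φ.Sat Nn (Function.update v i x)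
  intro h0 h1 x
  induction x using Nat.strong_induction_on with
  | _ x ih =>
    rcases Nat.eq_zero_or_pos x with hx | hx
    · subst hx
      refine h0 0 ?_
      show Function.update v i 0 i = 0
      rw [Function.update_self]
    · refine h1 x ?_
      intro y hy s hs
      have hy' : y = x / 2 := by
        have h2 : Function.update (Function.update v i x) j y j =
          Function.update (Function.update v i x) j y i / 2 := hy
        rw [Function.update_self, Function.update_of_ne hij, Function.update_self] at h2
        exact h2
      have hs' : s = y := by
        have h2 : Function.update (Function.update (Function.update v i x) j y) i s i =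
          Function.update (Function.update (Function.update v i x) j y) i s j := hs
        rw [Function.update_self, Function.update_of_ne hij.symm, Function.update_self] at h2
        exact h2
      have h3 := ih (x / 2) (Nat.div_lt_self hx (by norm_num))
      refine (RF01.m01 Nn φ _ _ fun k hk => ?_).2 h3
      have hkj : k ≠ j := by
        rintro rfl
        exact hj (free_occ k φ hk)
      by_cases hki : k = i
      · subst hki
        rw [Function.update_self, Function.update_self, hs', hy']
      · rw [Function.update_of_ne hki, Function.update_of_ne hkj, Function.update_of_ne hki,
          Function.update_of_ne hki]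

end Pool.Agent.J6H31.RF05
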