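import Pool.Agent.J6H50.RF.Stm

set_option autoImplicit false

/-!
# RF-13: theories in the class prove only true sentences
-/

namespace Pool.Agent.J6H31.RF13

open Pool.Agent.J6H50.RF Pool.Agent.NPC

theorem sat_iff {M : Type} (A : Str M) (φ ψ : Fm) (v : ℕ → M) :
    (Fm.iff φ ψ).Sat A v ↔ (φ.Sat A v ↔ ψ.Sat A v) := by
  simp only [Fm.iff, Fm.and, Fm.neg, Fm.Sat]
  tauto

theorem sat_inst {M : Type} (A : Str M) (i : ℕ) (t : Tm) (φ : Fm) (v : ℕ → M) (c : M)
    (hc : ∀ w, t.val A w = c) : (inst i t φ).Sat A v ↔ φ.Sat A (Function.update v i c) := by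
  simp only [inst, Fm.Sat, Tm.val, Function.update_self, hc]
  constructor
  · intro h
    exact h c rfl
  · rintro h x rfl
    exact h

theorem m13 : S_cond := by
  intro hdep hsound hbas hbasN hpindN hemb1 hemb2 habs hnumN hqd hone μ T Prov j e p hU hT hP hj
    hh n t ht a x z u ha hx hz hu hμ
  obtain ⟨-, -, hone3⟩ := hone hqd
  obtain ⟨-, hnum, -, hpT, hpm⟩ := hnumN
  obtain ⟨-, hqinj, hqsz, -, -⟩ := hqd
  -- the standard model satisfies `S12`
  have hS12 : Models Nn S12 := by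
    rintro φ (hφ | ⟨i, k, ψ, hik, hψ, -, rfl⟩) v
    · exact (hbas Nn).2 hbasN φ hφ v
    · exact hpindN i k ψ hik hψ v
  -- `hyp` is true
  have hhyp : ∀ v, (hyp μ j Prov e p).Sat Nn v := by
    intro v
    obtain ⟨P, hP1, hP2⟩ := hh
    exact hsound Nn S12 hS12 P hP1 _ (List.mem_of_mem_head? (by rw [hP2]; rfl)) v
  let y : ℕ := qd a x z u
  let v0 : ℕ → ℕ := asg [e, y, 2 ^ t]
  have h0 : v0 0 = e := rfl
  have h1 : v0 1 = y := rfl
  have h2 : v0 2 = 2 ^ t := rfl
  have hiff : (one j Prov).Sat Nn v0 ↔ (inst 0 (num e) μ).Sat Nn v0 := by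
    have h3 := hhyp v0 (v0 1) (v0 2)
    rw [Function.update_eq_self, Function.update_eq_self] at h3
    rw [← sat_iff]
    apply h3
    show (pTm p (.len (.var 1))).val Nn v0 ≤ (Tm.len (.var 2)).val Nn v0
    rw [hpT]
    have h4 : (Tm.len (.var 1)).val Nn v0 = y.size := rfl
    have h5 : (Tm.len (.var 2)).val Nn v0 = (2 ^ t).size := rfl
    rw [h4, h5, Nat.size_pow]
    have h6 := hpm p _ _ (hqsz n a x z u ha hx hz hu)
    have h7 : y.size = (qd a x z u).size := rfl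
    rw [h7]
    omega
  have hinst : (inst 0 (num e) μ).Sat Nn v0 := by
    rw [sat_inst Nn 0 (num e) μ v0 e (fun w => hnum e w)]
    have h3 : Function.update v0 0 e = v0 := by
      rw [← h0]
      exact Function.update_eq_self 0 v0
    rw [h3]
    exact hμ
  have hone' := (hone3 j Prov v0).1 (hiff.2 hinst)
  obtain ⟨a', x', z', u', hy, hPr⟩ := hone'
  obtain ⟨rfl, rfl, rfl, rfl⟩ := hqinj a x z u a' x' z' u' hy
  obtain ⟨P, -, hP1, hP2⟩ := (hP.iff _).1 hPr
  have hmem : muAt μ a x z ∈ P := List.mem_of_mem_head? (by rw [hP2]; rfl)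
  -- the model
  obtain ⟨A, -, hTA, M, B, hB⟩ := hT
  have hBas : Bas B := (hbas B).1 fun φ hφ v => hB φ (by
    rw [hTA]
    exact Or.inl (Or.inl hφ)) v
  obtain ⟨ι, i1, i2, i3, i4, i5, i6, i7⟩ := hemb1 B hBas
  have hE : Emb B ι := hemb2 B hBas ι i1 i2 i3 i4 i5 i6 i7
  obtain ⟨habs1, habs2⟩ := habs B ι hE
  let v1 : ℕ → ℕ := asg [a, x, z]
  have hs := hsound B T hB P hP1 _ hmem (fun i => ι (v1 i))
  unfold muAt at hs
  rw [sat_inst B 0 (num a) _ _ (ι a) (fun w => habs2 a w),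
    sat_inst B 1 (num x) _ _ (ι x) (fun w => habs2 x w),
    sat_inst B 2 (num z) _ _ (ι z) (fun w => habs2 z w)] at hs
  have e0 : Function.update (fun i => ι (v1 i)) 0 (ι a) = fun i => ι (v1 i) :=
    Function.update_eq_self 0 (fun i => ι (v1 i))
  have e1 : Function.update (fun i => ι (v1 i)) 1 (ι x) = fun i => ι (v1 i) :=
    Function.update_eq_self 1 (fun i => ι (v1 i))
  have e2 : Function.update (fun i => ι (v1 i)) 2 (ι z) = fun i => ι (v1 i) :=
    Function.update_eq_self 2 (fun i => ι (v1 i))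
  rw [e0, e1, e2] at hs
  exact (habs1 true μ hU.sb v1).2 hs

end Pool.Agent.J6H31.RF13
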